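import Mathlib

/-!
# Frobenius norm, projections and functions of Hermitian matrices
-/

open Matrix
open scoped ComplexOrder

namespace Pool.Agent.J4H97.MT

set_option linter.unusedSectionVars false

variable {m : Type*} [Fintype m] [DecidableEq m]

/-- real part of the trace -/
noncomputable def rt (M : Matrix m m ℂ) : ℝ := (trace M).re

lemma rt_add (M N : Matrix m m ℂ) : rt (M + N) = rt M + rt N := by simp [rt]
lemma rt_sub (M N : Matrix m m ℂ) : rt (M - N) = rt M - rt N := by simp [rt]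
lemma rt_mul_comm (M N : Matrix m m ℂ) : rt (M * N) = rt (N * M) := by rw [rt, rt, trace_mul_comm]
lemma rt_sum {ι : Type*} (s : Finset ι) (f : ι → Matrix m m ℂ) :
    rt (∑ i ∈ s, f i) = ∑ i ∈ s, rt (f i) := by
  simp [rt, trace_sum]

/-- Frobenius norm -/
noncomputable def fro (M : Matrix m m ℂ) : ℝ :=
  ‖(WithLp.toLp 2 (fun p : m × m => M p.1 p.2) : EuclideanSpace ℂ (m × m))‖

lemma fro_nonneg (M : Matrix m m ℂ) : 0 ≤ fro M := norm_nonneg _

lemma fro_add_le (M N : Matrix m m ℂ) : fro (M + N) ≤ fro M + fro N := by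
  unfold fro
  refine le_trans (le_of_eq ?_) (norm_add_le _ _)
  congr 1

lemma fro_neg (M : Matrix m m ℂ) : fro (-M) = fro M := by
  unfold fro
  rw [← norm_neg]
  congr 1
  ext p
  simp

lemma fro_sub_le (M N : Matrix m m ℂ) : fro (M - N) ≤ fro M + fro N := by
  rw [sub_eq_add_neg]
  refine (fro_add_le _ _).trans ?_
  rw [fro_neg]

lemma fro_sub_comm (M N : Matrix m m ℂ) : fro (M - N) = fro (N - M) := by
  rw [← fro_neg]; congr 1; abel

lemma fro_zero : fro (0 : Matrix m m ℂ) = 0 := by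
  unfold fro
  have : (WithLp.toLp 2 (fun p : m × m => (0 : Matrix m m ℂ) p.1 p.2) :
      EuclideanSpace ℂ (m × m)) = 0 := by
    ext p; simp
  rw [this, norm_zero]

lemma fro_sum_le {ι : Type*} (s : Finset ι) (f : ι → Matrix m m ℂ) :
    fro (∑ i ∈ s, f i) ≤ ∑ i ∈ s, fro (f i) := by
  classical
  induction s using Finset.induction_on with
  | empty => simp [fro_zero]
  | insert a s ha ih =>
    rw [Finset.sum_insert ha, Finset.sum_insert ha]
    exact (fro_add_le _ _).trans (by linarith)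

lemma fro_sq' (M : Matrix m m ℂ) : fro M ^ 2 = ∑ i, ∑ j, ‖M i j‖ ^ 2 := by
  unfold fro
  rw [EuclideanSpace.norm_sq_eq, Fintype.sum_prod_type]

lemma fro_sq (M : Matrix m m ℂ) : fro M ^ 2 = rt (Mᴴ * M) := by
  rw [fro_sq', rt, trace]
  simp only [diag_apply, mul_apply, conjTranspose_apply, Complex.re_sum]
  rw [Finset.sum_comm]
  refine Finset.sum_congr rfl fun i _ => Finset.sum_congr rfl fun j _ => ?_
  rw [Complex.star_def, ← Complex.normSq_eq_conj_mul_self, Complex.ofReal_re,
    Complex.normSq_eq_norm_sq]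

lemma fro_conjTranspose (M : Matrix m m ℂ) : fro Mᴴ = fro M := by
  have h : fro Mᴴ ^ 2 = fro M ^ 2 := by
    rw [fro_sq', fro_sq', Finset.sum_comm]
    simp [conjTranspose_apply]
  exact (sq_eq_sq₀ (fro_nonneg _) (fro_nonneg _)).1 h

/-- orthogonal projections -/
structure IsProj (P : Matrix m m ℂ) : Prop where
  herm : Pᴴ = P
  idem : P * P = P

lemma IsProj.compl {P : Matrix m m ℂ} (h : IsProj P) : IsProj (1 - P) := by
  constructor
  · rw [conjTranspose_sub, h.herm, conjTranspose_one]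
  · rw [mul_sub, sub_mul, sub_mul, h.idem]; simp

lemma IsProj.zero : IsProj (0 : Matrix m m ℂ) := ⟨by simp, by simp⟩

/-- sums of orthogonal projections -/
lemma IsProj.add {P Q : Matrix m m ℂ} (hP : IsProj P) (hQ : IsProj Q) (h : P * Q = 0) :
    IsProj (P + Q) := by
  have h' : Q * P = 0 := by
    have := congrArg conjTranspose h
    rwa [conjTranspose_mul, hP.herm, hQ.herm, conjTranspose_zero] at this
  constructor
  · rw [conjTranspose_add, hP.herm, hQ.herm]
  · rw [mul_add, add_mul, add_mul, hP.idem, hQ.idem, h, h']; simp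

lemma mul_eq_zero_symm {P Q : Matrix m m ℂ} (hP : IsProj P) (hQ : IsProj Q) (h : P * Q = 0) :
    Q * P = 0 := by
  have := congrArg conjTranspose h
  rwa [conjTranspose_mul, hP.herm, hQ.herm, conjTranspose_zero] at this

lemma IsProj.sub {P Q : Matrix m m ℂ} (hP : IsProj P) (hQ : IsProj Q) (h : P * Q = P) :
    IsProj (Q - P) := by
  have h' : Q * P = P := by
    have := congrArg conjTranspose h
    rwa [conjTranspose_mul, hP.herm, hQ.herm] at this
  constructor
  · rw [conjTranspose_sub, hP.herm, hQ.herm]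
  · rw [mul_sub, sub_mul, sub_mul, hP.idem, hQ.idem, h, h']; simp

lemma fro_pyth {P : Matrix m m ℂ} (hP : IsProj P) (M : Matrix m m ℂ) :
    fro M ^ 2 = fro (P * M) ^ 2 + fro ((1 - P) * M) ^ 2 := by
  rw [fro_sq, fro_sq, fro_sq, ← rt_add]
  congr 1
  rw [conjTranspose_mul, conjTranspose_mul, hP.herm, hP.compl.herm]
  calc Mᴴ * M = Mᴴ * (P * M) + Mᴴ * ((1 - P) * M) := by rw [← mul_add, ← add_mul]; simp
    _ = _ := by
      rw [Matrix.mul_assoc Mᴴ P, ← Matrix.mul_assoc P P, hP.idem, Matrix.mul_assoc Mᴴ (1 - P),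
        ← Matrix.mul_assoc (1 - P) (1 - P), hP.compl.idem]

lemma fro_proj_mul_le {P : Matrix m m ℂ} (hP : IsProj P) (M : Matrix m m ℂ) :
    fro (P * M) ≤ fro M := by
  have := fro_pyth hP M
  have h2 : fro (P * M) ^ 2 ≤ fro M ^ 2 := by nlinarith [sq_nonneg (fro ((1 - P) * M))]
  exact (sq_le_sq₀ (fro_nonneg _) (fro_nonneg _)).1 h2

lemma fro_mul_proj_le {P : Matrix m m ℂ} (hP : IsProj P) (M : Matrix m m ℂ) :
    fro (M * P) ≤ fro M := by
  have := fro_proj_mul_le hP Mᴴ
  rwa [fro_conjTranspose, ← fro_conjTranspose, conjTranspose_mul, conjTranspose_conjTranspose,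
    hP.herm] at this

/-- `tr (α P) = ‖α P‖²` -/
lemma rt_proj_mul {α P : Matrix m m ℂ} (hα : IsProj α) (hP : IsProj P) :
    rt (α * P) = fro (α * P) ^ 2 := by
  rw [fro_sq, conjTranspose_mul, hα.herm, hP.herm, Matrix.mul_assoc, ← Matrix.mul_assoc α α,
    hα.idem, rt_mul_comm P, Matrix.mul_assoc, hP.idem]

lemma IsProj.posSemidef {P : Matrix m m ℂ} (hP : IsProj P) : P.PosSemidef := by
  have := posSemidef_conjTranspose_mul_self P
  rwa [hP.herm, hP.idem] at this

/-- functions of a Hermitian matrix -/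
noncomputable def fc {A : Matrix m m ℂ} (hA : A.IsHermitian) (f : ℝ → ℝ) : Matrix m m ℂ :=
  (hA.eigenvectorUnitary : Matrix m m ℂ) * diagonal (fun i => ((f (hA.eigenvalues i) : ℝ) : ℂ)) *
    (hA.eigenvectorUnitary : Matrix m m ℂ)ᴴ

lemma uu {A : Matrix m m ℂ} (hA : A.IsHermitian) :
    (hA.eigenvectorUnitary : Matrix m m ℂ)ᴴ * (hA.eigenvectorUnitary : Matrix m m ℂ) = 1 :=
  Unitary.coe_star_mul_self _

lemma uu' {A : Matrix m m ℂ} (hA : A.IsHermitian) :
    (hA.eigenvectorUnitary : Matrix m m ℂ) * (hA.eigenvectorUnitary : Matrix m m ℂ)ᴴ = 1 :=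
  Unitary.coe_mul_star_self _

lemma fc_id {A : Matrix m m ℂ} (hA : A.IsHermitian) : fc hA (fun t => t) = A := by
  conv_rhs => rw [hA.spectral_theorem]
  rfl

lemma fc_mul {A : Matrix m m ℂ} (hA : A.IsHermitian) (f g : ℝ → ℝ) :
    fc hA f * fc hA g = fc hA (fun t => f t * g t) := by
  unfold fc
  set U := (hA.eigenvectorUnitary : Matrix m m ℂ)
  calc U * diagonal (fun i => ((f (hA.eigenvalues i) : ℝ) : ℂ)) * Uᴴ *
        (U * diagonal (fun i => ((g (hA.eigenvalues i) : ℝ) : ℂ)) * Uᴴ)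
      = U * diagonal (fun i => ((f (hA.eigenvalues i) : ℝ) : ℂ)) * (Uᴴ * U) *
        (diagonal (fun i => ((g (hA.eigenvalues i) : ℝ) : ℂ)) * Uᴴ) := by
        simp only [Matrix.mul_assoc]
    _ = U * (diagonal (fun i => ((f (hA.eigenvalues i) : ℝ) : ℂ)) *
        diagonal (fun i => ((g (hA.eigenvalues i) : ℝ) : ℂ))) * Uᴴ := by
        rw [uu]; simp only [Matrix.mul_assoc, Matrix.one_mul]
    _ = _ := by
        rw [diagonal_mul_diagonal]
        congr 2
        ext i j
        simp

lemma fc_herm {A : Matrix m m ℂ} (hA : A.IsHermitian) (f : ℝ → ℝ) : (fc hA f)ᴴ = fc hA f := by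
  unfold fc
  rw [conjTranspose_mul, conjTranspose_mul, conjTranspose_conjTranspose, diagonal_conjTranspose,
    Matrix.mul_assoc]
  congr 2
  ext i j
  simp [diagonal_apply, Pi.star_apply]

lemma fc_add {A : Matrix m m ℂ} (hA : A.IsHermitian) (f g : ℝ → ℝ) :
    fc hA f + fc hA g = fc hA (fun t => f t + g t) := by
  unfold fc
  rw [← add_mul, ← mul_add, diagonal_add]
  simp

lemma fc_one {A : Matrix m m ℂ} (hA : A.IsHermitian) : fc hA (fun _ => 1) = 1 := by
  unfold fc
  simp only [Complex.ofReal_one]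
  rw [show (diagonal fun _ : m => (1 : ℂ)) = 1 from diagonal_one, Matrix.mul_one, uu']

lemma fc_congr {A : Matrix m m ℂ} (hA : A.IsHermitian) {f g : ℝ → ℝ}
    (h : ∀ i, f (hA.eigenvalues i) = g (hA.eigenvalues i)) : fc hA f = fc hA g := by
  unfold fc
  congr 2
  ext i j
  simp [diagonal_apply, h]

/-- trace against a matrix in the eigenbasis -/
lemma rt_fc_mul {A : Matrix m m ℂ} (hA : A.IsHermitian) (f : ℝ → ℝ) (M : Matrix m m ℂ) :
    rt (fc hA f * M) = ∑ i, f (hA.eigenvalues i) *
      (((hA.eigenvectorUnitary : Matrix m m ℂ)ᴴ * M *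
        (hA.eigenvectorUnitary : Matrix m m ℂ)) i i).re := by
  unfold fc
  set U := (hA.eigenvectorUnitary : Matrix m m ℂ)
  have : rt (U * diagonal (fun i => ((f (hA.eigenvalues i) : ℝ) : ℂ)) * Uᴴ * M) =
      rt (diagonal (fun i => ((f (hA.eigenvalues i) : ℝ) : ℂ)) * (Uᴴ * M * U)) := by
    rw [Matrix.mul_assoc, Matrix.mul_assoc, rt_mul_comm, Matrix.mul_assoc]
  rw [this, rt, trace]
  simp [diag_apply, diagonal_mul, Complex.re_sum]

lemma diag_nonneg' {M : Matrix m m ℂ} (hM : M.PosSemidef) (U : Matrix m m ℂ) (i : m) :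
    0 ≤ ((Uᴴ * M * U) i i).re := by
  have h := (hM.conjTranspose_mul_mul_same U).diag_nonneg (i := i)
  exact (Complex.le_def.1 h).1

lemma rt_fc_mul_le {A : Matrix m m ℂ} (hA : A.IsHermitian) {f g : ℝ → ℝ}
    (h : ∀ i, f (hA.eigenvalues i) ≤ g (hA.eigenvalues i)) {M : Matrix m m ℂ}
    (hM : M.PosSemidef) : rt (fc hA f * M) ≤ rt (fc hA g * M) := by
  rw [rt_fc_mul, rt_fc_mul]
  exact Finset.sum_le_sum fun i _ => mul_le_mul_of_nonneg_right (h i) (diag_nonneg' hM _ i)

lemma rt_fc {A : Matrix m m ℂ} (hA : A.IsHermitian) (f : ℝ → ℝ) :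
    rt (fc hA f) = ∑ i, f (hA.eigenvalues i) := by
  have := rt_fc_mul hA f 1
  rw [Matrix.mul_one, Matrix.mul_one, uu] at this
  simpa using this

/-- indicator functions give projections -/
lemma fc_isProj {A : Matrix m m ℂ} (hA : A.IsHermitian) {f : ℝ → ℝ}
    (h : ∀ t, f t * f t = f t) : IsProj (fc hA f) :=
  ⟨fc_herm hA f, by rw [fc_mul]; exact fc_congr hA fun i => h _⟩

lemma rt_nonneg_of_posSemidef {M : Matrix m m ℂ} (hM : M.PosSemidef) : 0 ≤ rt M :=
  (Complex.le_def.1 hM.trace_nonneg).1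

/-- The rounding lemma: if the projection `Δ` is nearly contained in `β`, it is close to a
projection contained in `β`. -/
lemma rounding {β Δ : Matrix m m ℂ} (hβ : IsProj β) (hΔ : IsProj Δ) :
    ∃ δ : Matrix m m ℂ, IsProj δ ∧ β * δ = δ ∧ fro (δ - Δ) ≤ 3 * fro ((1 - β) * Δ) := by
  set h := β * Δ * β with hh
  have hherm : h.IsHermitian := by
    show hᴴ = h
    rw [hh, conjTranspose_mul, conjTranspose_mul, hβ.herm, hΔ.herm, Matrix.mul_assoc]
  set f : ℝ → ℝ := fun t => if 1 / 2 < t then 1 else 0 with hf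
  set k : ℝ → ℝ := fun t => if 1 / 2 < t then 1 / t else 0 with hk
  have hfi : ∀ t, f t * f t = f t := by intro t; simp only [hf]; split_ifs <;> simp
  have hfk : fc hherm f = h * fc hherm k := by
    have e0 : fc hherm f = fc hherm (fun t => (fun t => t) t * k t) := by
      apply fc_congr
      intro i
      simp only [hf, hk]
      split_ifs with h1
      · rw [mul_one_div_cancel]; linarith
      · simp
    rw [e0, ← fc_mul hherm (fun t => t) k, fc_id]
  have hX : ((1 - β) * Δ * β)ᴴ * ((1 - β) * Δ * β) = h - h * h := by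
    rw [conjTranspose_mul, conjTranspose_mul, hβ.herm, hΔ.herm, hβ.compl.herm]
    have e1 : β * (Δ * (1 - β)) * ((1 - β) * Δ * β) = β * Δ * ((1 - β) * (1 - β)) * Δ * β := by
      simp only [Matrix.mul_assoc]
    rw [e1, hβ.compl.idem, hh]
    have e2 : β * Δ * (1 - β) * Δ * β = β * (Δ * Δ) * β - β * Δ * β * Δ * β := by
      rw [mul_sub, mul_one, sub_mul, sub_mul]
      simp only [Matrix.mul_assoc]
    rw [e2, hΔ.idem]
    congr 1
    have e3 : β * Δ * β * (β * Δ * β) = β * Δ * (β * β) * Δ * β := by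
      simp only [Matrix.mul_assoc]
    rw [e3, hβ.idem]
  have hhh : h - h * h = fc hherm (fun t => t - t * t) := by
    have e2 : h * h = fc hherm (fun t => t * t) := by
      have e0 := fc_mul hherm (fun t => t) (fun t => t)
      rwa [fc_id] at e0
    have e3 := fc_add hherm (fun t => t - t * t) (fun t => t * t)
    have e4 : fc hherm (fun t => t - t * t + t * t) = fc hherm (fun t => t) :=
      fc_congr hherm fun i => by ring
    rw [e4, fc_id, ← e2] at e3
    exact (eq_sub_of_add_eq e3).symm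
  -- eigenvalues in [0,1]
  have heig : ∀ i, 0 ≤ hherm.eigenvalues i - hherm.eigenvalues i * hherm.eigenvalues i := by
    intro i
    have hps : (h - h * h).PosSemidef := hX ▸ posSemidef_conjTranspose_mul_self _
    have h1 := diag_nonneg' hps (hherm.eigenvectorUnitary : Matrix m m ℂ) i
    rw [hhh] at h1
    unfold fc at h1
    set U := (hherm.eigenvectorUnitary : Matrix m m ℂ) with hU
    have e : Uᴴ * (U * diagonal (fun i => (((fun t => t - t * t) (hherm.eigenvalues i) : ℝ) : ℂ)) *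
        Uᴴ) * U = diagonal (fun i => (((fun t => t - t * t) (hherm.eigenvalues i) : ℝ) : ℂ)) := by
      calc _ = (Uᴴ * U) * diagonal (fun i => (((fun t => t - t * t) (hherm.eigenvalues i) : ℝ) : ℂ)) *
          (Uᴴ * U) := by simp only [Matrix.mul_assoc]
        _ = _ := by rw [hU, uu]; simp
    rw [e] at h1
    simpa using h1
  refine ⟨fc hherm f, fc_isProj hherm hfi, ?_, ?_⟩
  · rw [hfk, ← Matrix.mul_assoc]
    congr 1
    rw [hh, ← Matrix.mul_assoc, ← Matrix.mul_assoc, hβ.idem]
  · have h1 : fro (fc hherm f - h) ≤ fro ((1 - β) * Δ) := by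
      have e1 : fc hherm f - h = fc hherm (fun t => f t - t) := by
        have e3 := fc_add hherm (fun t => f t - t) (fun t => t)
        have e4 : fc hherm (fun t => f t - t + t) = fc hherm f := fc_congr hherm fun i => by ring
        rw [e4, fc_id] at e3
        rw [← e3]; simp
      have e2 : fro (fc hherm f - h) ^ 2 ≤ fro ((1 - β) * Δ * β) ^ 2 := by
        rw [fro_sq, fro_sq, hX, hhh, e1, fc_herm, fc_mul, rt_fc, rt_fc]
        refine Finset.sum_le_sum fun i _ => ?_
        have := heig i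
        set t := hherm.eigenvalues i
        have ht0 : 0 ≤ t := by nlinarith [sq_nonneg t]
        have ht1 : t ≤ 1 := by
          by_contra hcon
          push Not at hcon
          nlinarith
        simp only [hf]
        split_ifs with h2
        · nlinarith
        · push Not at h2; nlinarith
      have e3 := (sq_le_sq₀ (fro_nonneg _) (fro_nonneg _)).1 e2
      exact e3.trans (fro_mul_proj_le hβ _)
    have h2 : fro (h - Δ) ≤ 2 * fro ((1 - β) * Δ) := by
      have e1 : h - Δ = - (β * Δ * (1 - β)) - (1 - β) * Δ := by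
        rw [hh, mul_sub, sub_mul]; simp
      rw [e1]
      refine (fro_sub_le _ _).trans ?_
      rw [fro_neg]
      have e2 : fro (β * Δ * (1 - β)) ≤ fro ((1 - β) * Δ) := by
        rw [← fro_conjTranspose (β * Δ * (1 - β)), conjTranspose_mul, conjTranspose_mul, hβ.herm,
          hΔ.herm, hβ.compl.herm, ← Matrix.mul_assoc]
        exact fro_mul_proj_le hβ _
      linarith
    have e : fc hherm f - Δ = (fc hherm f - h) + (h - Δ) := by simp
    rw [e]
    refine (fro_add_le _ _).trans ?_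
    linarith

end Pool.Agent.J4H97.MT
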