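import Pool.Agent.J4H97.MT.Step

/-!
# Spectral levels and the bound for the optimal orthogonal projections
-/

open Matrix
open scoped ComplexOrder

namespace Pool.Agent.J4H97.MT

set_option linter.unusedSectionVars false

variable {m : Type*} [Fintype m] [DecidableEq m] {ι : Type*} [Fintype ι] [DecidableEq ι]

/-- indicator of `(s, ∞)` -/
noncomputable def ind (s t : ℝ) : ℝ := if s < t then 1 else 0

lemma ind_nonneg (s t : ℝ) : 0 ≤ ind s t := by unfold ind; split_ifs <;> norm_num
lemma ind_le_one (s t : ℝ) : ind s t ≤ 1 := by unfold ind; split_ifs <;> norm_num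
lemma ind_mul_self (s t : ℝ) : ind s t * ind s t = ind s t := by unfold ind; split_ifs <;> norm_num
lemma ind_mul (s s' t : ℝ) (h : s' ≤ s) : ind s t * ind s' t = ind s t := by
  unfold ind
  by_cases h1 : s < t
  · rw [if_pos h1, if_pos (lt_of_le_of_lt h h1)]; norm_num
  · rw [if_neg h1, zero_mul]

lemma geom_sum_le (Λ : ℝ) (hΛ : 2 ≤ Λ) (N : ℕ) (B : ℝ) (hB : 0 ≤ B) :
    ∑ n ∈ Finset.range N, B / Λ ^ (n + 1) ≤ 2 * (B / Λ) := by
  have hΛ0 : 0 < Λ := by linarith
  induction N generalizing B with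
  | zero => simp; positivity
  | succ N ih =>
    rw [Finset.sum_range_succ']
    have e : ∀ n, B / Λ ^ (n + 1 + 1) = (B / Λ) / Λ ^ (n + 1) := by
      intro n; rw [pow_succ Λ (n + 1)]; field_simp
    simp only [e]
    have h1 := ih (B / Λ) (by positivity)
    have h2 : B / Λ / Λ ≤ (B / Λ) / 2 := by
      apply div_le_div_of_nonneg_left (by positivity) (by norm_num) hΛ
    simp only [zero_add, pow_one]
    linarith

lemma geom_upper (Λ : ℝ) (hΛ : 2 ≤ Λ) (a : ℝ) (ha : 0 ≤ a) (N : ℕ) (B : ℝ) (hB : 0 ≤ B) :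
    ∑ n ∈ Finset.range N, B / Λ ^ (n + 1) * ind (B / Λ ^ (n + 1)) a ≤ 2 * a := by
  have hΛ0 : 0 < Λ := by linarith
  induction N generalizing B with
  | zero => simp; positivity
  | succ N ih =>
    rcases lt_or_ge (B / Λ) a with h | h
    · calc ∑ n ∈ Finset.range (N + 1), B / Λ ^ (n + 1) * ind (B / Λ ^ (n + 1)) a
          ≤ ∑ n ∈ Finset.range (N + 1), B / Λ ^ (n + 1) := by
            refine Finset.sum_le_sum fun n _ => ?_
            exact mul_le_of_le_one_right (by positivity) (ind_le_one _ _)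
        _ ≤ 2 * (B / Λ) := geom_sum_le Λ hΛ _ _ hB
        _ ≤ 2 * a := by linarith
    · rw [Finset.sum_range_succ']
      have e : ∀ n, B / Λ ^ (n + 1 + 1) = (B / Λ) / Λ ^ (n + 1) := by
        intro n; rw [pow_succ Λ (n + 1)]; field_simp
      simp only [e]
      have h1 := ih (B / Λ) (by positivity)
      have h2 : ind (B / Λ ^ (0 + 1)) a = 0 := by
        unfold ind; rw [if_neg]; simpa using h
      rw [h2]
      linarith

lemma geom_lower (Λ : ℝ) (hΛ : 2 ≤ Λ) (a : ℝ) (_ha : 0 ≤ a) (N : ℕ) (B : ℝ) (hB : 0 < B)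
    (hN : a = 0 ∨ B / Λ ^ N < a) (haB : a ≤ B) :
    a ≤ ∑ n ∈ Finset.range N, Λ * (B / Λ ^ (n + 1)) * ind (B / Λ ^ (n + 1)) a := by
  have hΛ0 : 0 < Λ := by linarith
  induction N generalizing B with
  | zero =>
    rcases hN with h | h
    · simp [h]
    · simp at h; linarith
  | succ N ih =>
    rw [Finset.sum_range_succ']
    have e : ∀ n, B / Λ ^ (n + 1 + 1) = (B / Λ) / Λ ^ (n + 1) := by
      intro n; rw [pow_succ Λ (n + 1)]; field_simp
    simp only [e]
    have hnn : 0 ≤ ∑ n ∈ Finset.range N,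
        Λ * (B / Λ / Λ ^ (n + 1)) * ind (B / Λ / Λ ^ (n + 1)) a :=
      Finset.sum_nonneg fun n _ => mul_nonneg (by positivity) (ind_nonneg _ _)
    rcases lt_or_ge (B / Λ) a with h | h
    · have h2 : ind (B / Λ ^ (0 + 1)) a = 1 := by
        unfold ind; rw [if_pos]; simpa using h
      rw [h2]
      have : Λ * (B / Λ ^ (0 + 1)) * 1 = B := by
        rw [zero_add, pow_one]; field_simp
      linarith
    · have h2 : ind (B / Λ ^ (0 + 1)) a = 0 := by
        unfold ind; rw [if_neg]; simpa using h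
      rw [h2, mul_zero, add_zero]
      apply ih (B / Λ) (by positivity) _ h
      rcases hN with h3 | h3
      · exact Or.inl h3
      · right
        rw [div_div, ← pow_succ']
        exact h3

/-- the pair bound -/
lemma pair_bound {P Q T : Matrix m m ℂ} (hP : IsProj P) (hQ : IsProj Q) (hT : IsProj T) :
    fro (Q * P) ^ 2 ≤ 2 * (rt (Q * T) + rt (P * (1 - T))) := by
  rw [rt_proj_mul hQ hT, rt_proj_mul hP hT.compl]
  have e : Q * P = (Q * T) * P + Q * ((1 - T) * P) := by
    rw [Matrix.mul_assoc, ← mul_add, ← add_mul]; simp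
  have h1 : fro (Q * P) ≤ fro (Q * T) + fro (P * (1 - T)) := by
    rw [e]
    refine (fro_add_le _ _).trans (add_le_add (fro_mul_proj_le hP _) ?_)
    refine (fro_proj_mul_le hQ _).trans (le_of_eq ?_)
    rw [← fro_conjTranspose, conjTranspose_mul, hP.herm, hT.compl.herm]
  have h2 : fro (Q * P) ^ 2 ≤ (fro (Q * T) + fro (P * (1 - T))) ^ 2 :=
    pow_le_pow_left₀ (fro_nonneg _) h1 2
  nlinarith [sq_nonneg (fro (Q * T) - fro (P * (1 - T)))]

lemma SS_sq_le (p : ι → Matrix m m ℂ) :
    SS p ^ 2 ≤ (Fintype.card ι : ℝ) ^ 2 *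
      ∑ j, ∑ k ∈ Finset.univ.erase j, fro (p k * p j) ^ 2 := by
  unfold SS
  have h1 := sq_sum_le_card_mul_sum_sq (s := Finset.univ)
    (f := fun j => ∑ k ∈ Finset.univ.erase j, fro (p k * p j))
  refine h1.trans ?_
  rw [Finset.card_univ, pow_two, mul_assoc]
  refine mul_le_mul_of_nonneg_left ?_ (Nat.cast_nonneg _)
  rw [Finset.mul_sum]
  refine Finset.sum_le_sum fun j _ => ?_
  refine (sq_sum_le_card_mul_sum_sq).trans ?_
  refine mul_le_mul_of_nonneg_right ?_ (Finset.sum_nonneg fun _ _ => sq_nonneg _)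
  exact_mod_cast Finset.card_le_univ _

/-- **Main bound.** For positive semidefinite `A j` and any projections `T j k` there are mutually
orthogonal projections `α j` whose total error is at most a constant times the sum of the
pairwise errors of the tests `T j k`. -/
theorem main_proj (A : ι → Matrix m m ℂ) (hA : ∀ j, (A j).PosSemidef)
    (T : ι → ι → Matrix m m ℂ) (hT : ∀ j k, IsProj (T j k)) :
    ∃ α : ι → Matrix m m ℂ, Orth α ∧ ∑ j, rt (A j * (1 - α j)) ≤
      4 * (Fintype.card ι : ℝ) ^ 2 * (4 * 16 ^ Fintype.card ι) ^ 2 *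
        ∑ j, ∑ k ∈ Finset.univ.erase j, (rt (A k * T j k) + rt (A j * (1 - T j k))) := by
  set Λ : ℝ := 4 * 16 ^ Fintype.card ι with hΛdef
  have hΛ : 2 ≤ Λ := by
    have : (1 : ℝ) ≤ 16 ^ Fintype.card ι := one_le_pow₀ (by norm_num)
    rw [hΛdef]; linarith
  have hΛ0 : 0 < Λ := by linarith
  have hA' : ∀ j, (A j).IsHermitian := fun j => (hA j).isHermitian
  have hev : ∀ j i, 0 ≤ (hA' j).eigenvalues i := fun j i => (hA j).eigenvalues_nonneg i
  set B : ℝ := 1 + ∑ j, ∑ i, (hA' j).eigenvalues i with hB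
  have hB0 : 0 < B := by
    have : 0 ≤ ∑ j, ∑ i, (hA' j).eigenvalues i :=
      Finset.sum_nonneg fun j _ => Finset.sum_nonneg fun i _ => hev j i
    linarith
  have hBle : ∀ j i, (hA' j).eigenvalues i ≤ B := by
    intro j i
    have h1 : (hA' j).eigenvalues i ≤ ∑ i, (hA' j).eigenvalues i :=
      Finset.single_le_sum (fun i _ => hev j i) (Finset.mem_univ i)
    have h2 : ∑ i, (hA' j).eigenvalues i ≤ ∑ j, ∑ i, (hA' j).eigenvalues i :=
      Finset.single_le_sum (f := fun j => ∑ i, (hA' j).eigenvalues i)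
        (fun j _ => Finset.sum_nonneg fun i _ => hev j i) (Finset.mem_univ j)
    linarith
  obtain ⟨N, hN⟩ : ∃ N : ℕ, ∀ j i, (hA' j).eigenvalues i = 0 ∨
      B / Λ ^ N < (hA' j).eigenvalues i := by
    have hlim : Filter.Tendsto (fun N : ℕ => B / Λ ^ N) Filter.atTop (nhds 0) := by
      have := tendsto_pow_atTop_nhds_zero_of_lt_one (r := 1 / Λ) (by positivity)
        (by rw [div_lt_one hΛ0]; linarith)
      have h2 := this.const_mul B
      rw [mul_zero] at h2
      refine h2.congr fun N => ?_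
      rw [one_div, inv_pow]; rfl
    have : ∀ᶠ N : ℕ in Filter.atTop, ∀ j i, (hA' j).eigenvalues i = 0 ∨
        B / Λ ^ N < (hA' j).eigenvalues i := by
      rw [Filter.eventually_all]; intro j
      rw [Filter.eventually_all]; intro i
      rcases (hev j i).eq_or_lt with h | h
      · exact Filter.Eventually.of_forall fun N => Or.inl h.symm
      · exact (hlim.eventually_lt_const h).mono fun N hN => Or.inr hN
    exact this.exists
  set p : ℕ → ι → Matrix m m ℂ := fun n j => fc (hA' j) (ind (B / Λ ^ n)) with hp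
  set w : ℕ → ℝ := fun n => Λ * (B / Λ ^ n) with hw
  have hwn : ∀ n, 0 ≤ w n := fun n => by positivity
  have hpproj : ∀ n k, IsProj (p n k) := fun n k => fc_isProj _ fun t => ind_mul_self _ _
  obtain ⟨α, h1, h2⟩ := all_levels p hpproj
    (fun k => by
      have : fc (hA' k) (ind (B / Λ ^ 0)) = fc (hA' k) (fun _ => 0) := by
        apply fc_congr
        intro i
        unfold ind
        rw [if_neg]
        simpa using hBle k i
      show fc (hA' k) (ind (B / Λ ^ 0)) = 0
      rw [this]
      unfold fc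
      simp)
    (fun n k => by
      show fc (hA' k) _ * fc (hA' k) _ = fc (hA' k) _
      rw [fc_mul]
      apply fc_congr
      intro i
      apply ind_mul
      apply div_le_div_of_nonneg_left hB0.le (by positivity)
      exact pow_le_pow_right₀ (by linarith) (Nat.le_succ n))
    w hwn (fun n => by
      show Λ * (B / Λ ^ (n + 1)) * Λ = Λ * (B / Λ ^ n)
      rw [pow_succ]; field_simp) N
  refine ⟨α, h1, ?_⟩
  -- lower bound for the left side
  have hleft : ∑ j, rt (A j * (1 - α j)) ≤
      ∑ n ∈ Finset.range N, w (n + 1) * ∑ k, fro ((1 - α k) * p (n + 1) k) ^ 2 := by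
    have e1 : ∀ n k, fro ((1 - α k) * p (n + 1) k) ^ 2 = rt (p (n + 1) k * (1 - α k)) := by
      intro n k
      rw [← rt_proj_mul (h1.proj k).compl (hpproj _ _), rt_mul_comm]
    have e2 : ∑ n ∈ Finset.range N, w (n + 1) * ∑ k, fro ((1 - α k) * p (n + 1) k) ^ 2 =
        ∑ k, ∑ n ∈ Finset.range N, w (n + 1) * rt (p (n + 1) k * (1 - α k)) := by
      rw [Finset.sum_comm]
      refine Finset.sum_congr rfl fun n _ => ?_
      rw [Finset.mul_sum]
      exact Finset.sum_congr rfl fun k _ => by rw [e1]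
    rw [e2]
    refine Finset.sum_le_sum fun j _ => ?_
    have hps := (h1.proj j).compl.posSemidef
    calc rt (A j * (1 - α j)) = rt (fc (hA' j) (fun t => t) * (1 - α j)) := by rw [fc_id]
      _ ≤ rt (fc (hA' j) (fun t => ∑ n ∈ Finset.range N,
            w (n + 1) * ind (B / Λ ^ (n + 1)) t) * (1 - α j)) := by
          refine rt_fc_mul_le (hA' j) (fun i => ?_) hps
          exact geom_lower Λ hΛ _ (hev j i) N B hB0 (hN j i) (hBle j i)
      _ = ∑ n ∈ Finset.range N, w (n + 1) * rt (p (n + 1) j * (1 - α j)) := by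
          simp only [hp, rt_fc_mul, Finset.sum_mul, Finset.mul_sum]
          rw [Finset.sum_comm]
          simp only [mul_assoc]
  -- upper bound for the right side
  have hup : ∀ (j : ι) (M : Matrix m m ℂ), M.PosSemidef →
      ∑ n ∈ Finset.range N, w (n + 1) * rt (p (n + 1) j * M) ≤ 2 * Λ * rt (A j * M) := by
    intro j M hM
    calc ∑ n ∈ Finset.range N, w (n + 1) * rt (p (n + 1) j * M)
        = rt (fc (hA' j) (fun t => ∑ n ∈ Finset.range N,
            w (n + 1) * ind (B / Λ ^ (n + 1)) t) * M) := by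
          simp only [hp, rt_fc_mul, Finset.sum_mul, Finset.mul_sum]
          rw [Finset.sum_comm]
          simp only [mul_assoc]
      _ ≤ rt (fc (hA' j) (fun t => 2 * Λ * t) * M) := by
          refine rt_fc_mul_le (hA' j) (fun i => ?_) hM
          have := geom_upper Λ hΛ _ (hev j i) N B hB0.le
          calc ∑ n ∈ Finset.range N, w (n + 1) * ind (B / Λ ^ (n + 1)) ((hA' j).eigenvalues i)
              = Λ * ∑ n ∈ Finset.range N, B / Λ ^ (n + 1) *
                ind (B / Λ ^ (n + 1)) ((hA' j).eigenvalues i) := by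
                rw [Finset.mul_sum]
                exact Finset.sum_congr rfl fun n _ => by simp only [hw]; ring
            _ ≤ Λ * (2 * (hA' j).eigenvalues i) := mul_le_mul_of_nonneg_left this hΛ0.le
            _ = _ := by ring
      _ = 2 * Λ * rt (A j * M) := by
          conv_rhs => rw [← fc_id (hA' j)]
          rw [rt_fc_mul, rt_fc_mul, Finset.mul_sum]
          exact Finset.sum_congr rfl fun i _ => by ring
  have hright : ∑ n ∈ Finset.range N, w (n + 1) * SS (p (n + 1)) ^ 2 ≤
      4 * (Fintype.card ι : ℝ) ^ 2 * Λ *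
        ∑ j, ∑ k ∈ Finset.univ.erase j, (rt (A k * T j k) + rt (A j * (1 - T j k))) := by
    calc ∑ n ∈ Finset.range N, w (n + 1) * SS (p (n + 1)) ^ 2
        ≤ ∑ n ∈ Finset.range N, w (n + 1) * ((Fintype.card ι : ℝ) ^ 2 *
          ∑ j, ∑ k ∈ Finset.univ.erase j, (2 * (rt (p (n + 1) k * T j k) +
            rt (p (n + 1) j * (1 - T j k))))) := by
          refine Finset.sum_le_sum fun n _ => mul_le_mul_of_nonneg_left ?_ (hwn _)
          refine (SS_sq_le _).trans (mul_le_mul_of_nonneg_left ?_ (sq_nonneg _))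
          refine Finset.sum_le_sum fun j _ => Finset.sum_le_sum fun k _ => ?_
          exact pair_bound (hpproj _ _) (hpproj _ _) (hT j k)
      _ = 2 * (Fintype.card ι : ℝ) ^ 2 * ∑ j, ∑ k ∈ Finset.univ.erase j,
          (∑ n ∈ Finset.range N, w (n + 1) * rt (p (n + 1) k * T j k) +
            ∑ n ∈ Finset.range N, w (n + 1) * rt (p (n + 1) j * (1 - T j k))) := by
          simp only [← Finset.sum_add_distrib, Finset.mul_sum]
          rw [Finset.sum_comm]
          refine Finset.sum_congr rfl fun j _ => ?_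
          rw [Finset.sum_comm]
          refine Finset.sum_congr rfl fun k _ => Finset.sum_congr rfl fun n _ => ?_
          ring
      _ ≤ 2 * (Fintype.card ι : ℝ) ^ 2 * ∑ j, ∑ k ∈ Finset.univ.erase j,
          (2 * Λ * rt (A k * T j k) + 2 * Λ * rt (A j * (1 - T j k))) := by
          refine mul_le_mul_of_nonneg_left ?_ (by positivity)
          refine Finset.sum_le_sum fun j _ => Finset.sum_le_sum fun k _ => ?_
          exact add_le_add (hup k _ (hT j k).posSemidef) (hup j _ (hT j k).compl.posSemidef)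
      _ = _ := by
          simp only [Finset.mul_sum]
          refine Finset.sum_congr rfl fun j _ => Finset.sum_congr rfl fun k _ => ?_
          ring
  have hwX : 0 ≤ w N * (∑ k, fro (α k - p N k)) ^ 2 := mul_nonneg (hwn _) (sq_nonneg _)
  calc ∑ j, rt (A j * (1 - α j))
      ≤ ∑ n ∈ Finset.range N, w (n + 1) * ∑ k, fro ((1 - α k) * p (n + 1) k) ^ 2 := hleft
    _ ≤ Λ * ∑ n ∈ Finset.range N, w (n + 1) * SS (p (n + 1)) ^ 2 := by linarith
    _ ≤ Λ * (4 * (Fintype.card ι : ℝ) ^ 2 * Λ *
        ∑ j, ∑ k ∈ Finset.univ.erase j, (rt (A k * T j k) + rt (A j * (1 - T j k)))) :=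
        mul_le_mul_of_nonneg_left hright hΛ0.le
    _ = _ := by ring

end Pool.Agent.J4H97.MT
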