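import Pool.Agent.J4H97.MT.Levels

/-!
# Lower bound for the trace of the square root, and the trace norm of a difference
-/

open Matrix
open scoped ComplexOrder MatrixOrder

namespace Pool.Agent.J4H97.MT

set_option linter.unusedSectionVars false

variable {m : Type*} [Fintype m] [DecidableEq m] {ι : Type*} [Fintype ι] [DecidableEq ι]

lemma rt_conjTranspose (M : Matrix m m ℂ) : rt Mᴴ = rt M := by
  rw [rt, rt, trace_conjTranspose]; simp

lemma two_rt_mul_le (X Y : Matrix m m ℂ) : 2 * rt (X * Y) ≤ fro X ^ 2 + fro Y ^ 2 := by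
  have h := sq_nonneg (fro (Xᴴ - Y))
  rw [fro_sq, conjTranspose_sub, conjTranspose_conjTranspose, sub_mul, mul_sub, mul_sub,
    rt_sub, rt_sub, rt_sub] at h
  have h1 : rt (Yᴴ * Xᴴ) = rt (X * Y) := by rw [← conjTranspose_mul, rt_conjTranspose]
  have h2 : rt (X * Xᴴ) = fro X ^ 2 := by rw [fro_sq, rt_mul_comm]
  have h3 : rt (Yᴴ * Y) = fro Y ^ 2 := (fro_sq Y).symm
  rw [h1, h2, h3] at h
  linarith

lemma rt_mul_nonneg {A M : Matrix m m ℂ} (hA : A.PosSemidef) (hM : M.PosSemidef) :
    0 ≤ rt (A * M) := by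
  have hA' := hA.isHermitian
  have h := rt_fc_mul_le hA' (f := fun _ => 0) (g := fun t => t)
    (fun i => hA.eigenvalues_nonneg i) hM
  rw [fc_id] at h
  refine le_trans (le_of_eq ?_) h
  rw [rt_fc_mul]; simp

lemma fc_posSemidef {A : Matrix m m ℂ} (hA : A.IsHermitian) {f : ℝ → ℝ}
    (h : ∀ i, 0 ≤ f (hA.eigenvalues i)) : (fc hA f).PosSemidef := by
  unfold fc
  have h1 : (diagonal (fun i => ((f (hA.eigenvalues i) : ℝ) : ℂ))).PosSemidef := by
    rw [posSemidef_diagonal_iff]
    intro i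
    exact_mod_cast h i
  exact h1.mul_mul_conjTranspose_same _

/-- `tr √(∑ A_j²) ≥ ∑ tr (A_j α_j)` for mutually orthogonal projections `α_j`. -/
lemma trace_sqrt_ge {A α : ι → Matrix m m ℂ} (hA : ∀ j, (A j).PosSemidef) (hα : Orth α)
    {T : Matrix m m ℂ} (hT : T.PosSemidef) (hTT : T * T = ∑ j, A j ^ 2) :
    ∑ j, rt (A j * α j) ≤ rt T := by
  have hT' := hT.isHermitian
  have hev : ∀ i, 0 ≤ hT'.eigenvalues i := fun i => hT.eigenvalues_nonneg i
  apply le_of_forall_pos_le_add
  intro e he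
  set ε : ℝ := 2 * e / (Fintype.card m + 1) with hε
  have hcard : (0 : ℝ) < Fintype.card m + 1 := by positivity
  have hε0 : 0 < ε := by positivity
  set F1 := fc hT' (fun t => Real.sqrt (t + ε)) with hF1
  set F2 := fc hT' (fun t => (Real.sqrt (t + ε))⁻¹) with hF2
  have h21 : F2 * F1 = 1 := by
    rw [hF1, hF2, fc_mul, ← fc_one hT']
    apply fc_congr
    intro i
    have : 0 < Real.sqrt (hT'.eigenvalues i + ε) := Real.sqrt_pos.2 (by linarith [hev i])
    field_simp
  have hterm : ∀ j, 2 * rt (A j * α j) ≤ rt (A j ^ 2 * (F2 * F2)) + rt (F1 * F1 * α j) := by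
    intro j
    have e1 : A j * α j = (A j * F2) * (F1 * α j) := by
      rw [Matrix.mul_assoc, ← Matrix.mul_assoc F2, h21, Matrix.one_mul]
    rw [e1]
    refine (two_rt_mul_le _ _).trans (le_of_eq ?_)
    rw [fro_sq, fro_sq, conjTranspose_mul, conjTranspose_mul, hF1, hF2, fc_herm, fc_herm, ← hF1,
      ← hF2, (hA j).isHermitian.eq, (hα.proj j).herm]
    congr 1
    · rw [Matrix.mul_assoc, rt_mul_comm, pow_two]
      simp only [Matrix.mul_assoc]
    · rw [Matrix.mul_assoc, rt_mul_comm, Matrix.mul_assoc, Matrix.mul_assoc, (hα.proj j).idem,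
        ← Matrix.mul_assoc]
  have hsum : 2 * ∑ j, rt (A j * α j) ≤ rt (T * T * (F2 * F2)) + rt (F1 * F1 * ∑ j, α j) := by
    rw [Finset.mul_sum, hTT, Finset.sum_mul, Finset.mul_sum, rt_sum, rt_sum,
      ← Finset.sum_add_distrib]
    exact Finset.sum_le_sum fun j _ => hterm j
  have h1 : rt (T * T * (F2 * F2)) ≤ rt T := by
    have e1 : T * T = fc hT' (fun t => t * t) := by
      have e0 := fc_mul hT' (fun t => t) (fun t => t)
      rwa [fc_id] at e0
    have e2 : rt T = rt (fc hT' (fun t => t)) := by rw [fc_id]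
    rw [e1, hF2, fc_mul, fc_mul, e2, rt_fc, rt_fc]
    refine Finset.sum_le_sum fun i _ => ?_
    have ht := hev i
    set t := hT'.eigenvalues i
    have hs : Real.sqrt (t + ε) * Real.sqrt (t + ε) = t + ε := Real.mul_self_sqrt (by linarith)
    rw [← mul_inv, hs, ← div_eq_mul_inv, div_le_iff₀ (by linarith)]
    nlinarith
  have h2 : rt (F1 * F1 * ∑ j, α j) ≤ rt T + 2 * e := by
    have hP := hα.sum_proj Finset.univ
    have e1 : F1 * F1 = fc hT' (fun t => t + ε) := by
      rw [hF1, fc_mul]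
      apply fc_congr
      intro i
      exact Real.mul_self_sqrt (by linarith [hev i])
    have e2 : 0 ≤ rt (F1 * F1 * (1 - ∑ j, α j)) := by
      rw [e1]
      exact rt_mul_nonneg (fc_posSemidef hT' fun i => by linarith [hev i]) hP.compl.posSemidef
    have e3 : rt (F1 * F1 * (1 - ∑ j, α j)) = rt (F1 * F1) - rt (F1 * F1 * ∑ j, α j) := by
      rw [mul_sub, rt_sub, Matrix.mul_one]
    have e4 : rt (F1 * F1) = rt T + Fintype.card m * ε := by
      have e2 : rt T = rt (fc hT' (fun t => t)) := by rw [fc_id]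
      rw [e1, e2, rt_fc, rt_fc, Finset.sum_add_distrib]
      simp
    have e5 : (Fintype.card m : ℝ) * ε ≤ 2 * e := by
      rw [hε, mul_div_assoc', div_le_iff₀ hcard]
      nlinarith
    linarith
  linarith

/-- the optimal test between `A` and `B` -/
noncomputable def tst {X : Matrix m m ℂ} (hX : X.IsHermitian) : Matrix m m ℂ := fc hX (ind 0)

lemma tst_proj {X : Matrix m m ℂ} (hX : X.IsHermitian) : IsProj (tst hX) :=
  fc_isProj hX fun t => ind_mul_self 0 t

lemma abs_eq {X : Matrix m m ℂ} (hX : X.IsHermitian) :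
    CFC.abs X = fc hX (fun t => |t|) := by
  have hps : (fc hX (fun t => |t|)).PosSemidef := fc_posSemidef hX fun i => abs_nonneg _
  unfold CFC.abs
  apply CFC.sqrt_unique
  · have e0 := fc_mul hX (fun t => t) (fun t => t)
    rw [fc_id] at e0
    have : star X = X := hX
    rw [this, e0, fc_mul]
    apply fc_congr
    intro i
    exact abs_mul_abs_self _
  · exact hps.nonneg

lemma rt_abs {X : Matrix m m ℂ} (hX : X.IsHermitian) :
    rt (CFC.abs X) = 2 * rt (X * tst hX) - rt X := by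
  have e1 : X * tst hX = fc hX (fun t => t * ind 0 t) := by
    have e0 := fc_mul hX (fun t => t) (ind 0)
    rw [fc_id] at e0
    exact e0
  have e2 : rt X = rt (fc hX (fun t => t)) := by rw [fc_id]
  rw [abs_eq hX, e1, e2, rt_fc, rt_fc, rt_fc, Finset.mul_sum, ← Finset.sum_sub_distrib]
  refine Finset.sum_congr rfl fun i _ => ?_
  unfold ind
  split_ifs with h
  · rw [abs_of_pos h]; ring
  · rw [abs_of_nonpos (not_lt.1 h)]; ring

lemma pair_eq {A B : Matrix m m ℂ} (hX : (A - B).IsHermitian) :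
    rt (CFC.abs (A - B)) - rt (A + B) =
      -2 * (rt (B * tst hX) + rt (A * (1 - tst hX))) := by
  have e : A * (1 - tst hX) = A - A * tst hX := by rw [mul_sub A, Matrix.mul_one]
  rw [rt_abs hX, e, sub_mul, rt_sub, rt_sub, rt_add, rt_sub]
  ring

end Pool.Agent.J4H97.MT
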