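import Pool.Agent.J4H97.MT.Basic

/-!
# Building mutually orthogonal projections level by level
-/

open Matrix
open scoped ComplexOrder

namespace Pool.Agent.J4H97.MT

set_option linter.unusedSectionVars false

variable {m : Type*} [Fintype m] [DecidableEq m] {ι : Type*} [Fintype ι] [DecidableEq ι]

/-- mutually orthogonal projections -/
structure Orth (α : ι → Matrix m m ℂ) : Prop where
  proj : ∀ k, IsProj (α k)
  orth : ∀ k l, k ≠ l → α k * α l = 0

lemma Orth.sum_proj {α : ι → Matrix m m ℂ} (h : Orth α) (J : Finset ι) :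
    IsProj (∑ k ∈ J, α k) := by
  induction J using Finset.induction_on with
  | empty => simpa using IsProj.zero
  | insert a J ha ih =>
    rw [Finset.sum_insert ha]
    refine (h.proj a).add ih ?_
    rw [Finset.mul_sum]
    exact Finset.sum_eq_zero fun k hk => h.orth a k fun e => ha (e ▸ hk)

lemma Orth.mul_sum {α : ι → Matrix m m ℂ} (h : Orth α) (k : ι) : α k * ∑ l, α l = α k := by
  rw [Finset.mul_sum, Finset.sum_eq_single k, (h.proj k).idem]
  · intro l _ hl; exact h.orth k l hl.symm
  · simp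

/-- one new projection -/
lemma one_step {α p : ι → Matrix m m ℂ} (hα : Orth α) (j : ι) {Δ : Matrix m m ℂ}
    (hΔ : IsProj Δ) (hpΔ : p j * Δ = 0) :
    ∃ δ : Matrix m m ℂ, IsProj δ ∧ (∀ k, α k * δ = 0) ∧
      fro (δ - Δ) ≤ 3 * (∑ k, fro (α k - p k) + ∑ k ∈ Finset.univ.erase j, fro (p k * Δ)) := by
  set β := 1 - ∑ k, α k with hβ
  have hβp : IsProj β := (hα.sum_proj Finset.univ).compl
  obtain ⟨δ, h1, h2, h3⟩ := rounding hβp hΔ
  refine ⟨δ, h1, fun k => ?_, h3.trans ?_⟩
  · have e : α k * β = 0 := by rw [hβ, mul_sub, mul_one, hα.mul_sum, sub_self]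
    rw [← h2, ← Matrix.mul_assoc, e, Matrix.zero_mul]
  · refine mul_le_mul_of_nonneg_left ?_ (by norm_num)
    have e1 : (1 - β) * Δ = ∑ k, α k * Δ := by
      rw [hβ, sub_sub_cancel, Finset.sum_mul]
    rw [e1]
    refine (fro_sum_le _ _).trans ?_
    have e2 : ∀ k, fro (α k * Δ) ≤ fro (α k - p k) + fro (p k * Δ) := by
      intro k
      have : α k * Δ = (α k - p k) * Δ + p k * Δ := by rw [← add_mul]; simp
      rw [this]
      exact (fro_add_le _ _).trans (add_le_add_left (fro_mul_proj_le hΔ _) _)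
    refine (Finset.sum_le_sum fun k _ => e2 k).trans ?_
    rw [Finset.sum_add_distrib]
    refine add_le_add_right ?_ _
    rw [← Finset.add_sum_erase _ _ (Finset.mem_univ j), hpΔ, fro_zero, zero_add]

/-- the interaction term -/
noncomputable def SS (p : ι → Matrix m m ℂ) : ℝ :=
  ∑ j, ∑ k ∈ Finset.univ.erase j, fro (p k * p j)

lemma SS_nonneg (p : ι → Matrix m m ℂ) : 0 ≤ SS p :=
  Finset.sum_nonneg fun _ _ => Finset.sum_nonneg fun _ _ => fro_nonneg _

lemma level_step {α p p' : ι → Matrix m m ℂ} (hα : Orth α) (hp : ∀ k, IsProj (p k))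
    (hp' : ∀ k, IsProj (p' k)) (hpp : ∀ k, p k * p' k = p k) (J : Finset ι) :
    ∃ α' : ι → Matrix m m ℂ, Orth α' ∧ (∀ k, α' k * α k = α k) ∧
      ∑ k, fro (α' k - (if k ∈ J then p' k else p k)) + SS p' ≤
        4 ^ J.card * (∑ k, fro (α k - p k) + SS p') := by
  induction J using Finset.induction_on with
  | empty => exact ⟨α, hα, fun k => (hα.proj k).idem, by simp⟩
  | insert j J hj ih =>
    obtain ⟨α', h1, h2, h3⟩ := ih
    set q : ι → Matrix m m ℂ := fun k => if k ∈ J then p' k else p k with hq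
    set Δ := p' j - p j with hΔ
    have hΔp : IsProj Δ := (hp j).sub (hp' j) (hpp j)
    have hqj : q j = p j := by simp [hq, hj]
    have hqΔ : q j * Δ = 0 := by
      rw [hqj, hΔ, mul_sub, hpp, (hp j).idem, sub_self]
    obtain ⟨δ, k1, k2, k3⟩ := one_step (p := q) h1 j hΔp hqΔ
    have hqk : ∀ k, fro (q k * Δ) ≤ fro (p' k * p' j) := by
      intro k
      have e1 : q k * p' k = q k := by
        simp only [hq]; split_ifs
        · exact (hp' k).idem
        · exact hpp k
      have hqp : IsProj (q k) := by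
        simp only [hq]; split_ifs
        · exact hp' k
        · exact hp k
      have e2 : p' j * Δ = Δ := by
        have : p' j * p j = p j := by
          have := congrArg conjTranspose (hpp j)
          rwa [conjTranspose_mul, (hp' j).herm, (hp j).herm] at this
        rw [hΔ, mul_sub, (hp' j).idem, this]
      have e3 : q k * Δ = q k * ((p' k * p' j) * Δ) := by
        rw [Matrix.mul_assoc, e2, ← Matrix.mul_assoc, e1]
      rw [e3]
      exact (fro_proj_mul_le hqp _).trans (fro_mul_proj_le hΔp _)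
    have hsum : ∑ k ∈ Finset.univ.erase j, fro (q k * Δ) ≤ SS p' := by
      refine (Finset.sum_le_sum fun k _ => hqk k).trans ?_
      unfold SS
      exact Finset.single_le_sum
        (f := fun j => ∑ k ∈ Finset.univ.erase j, fro (p' k * p' j))
        (fun _ _ => Finset.sum_nonneg fun _ _ => fro_nonneg _) (Finset.mem_univ j)
    refine ⟨Function.update α' j (α' j + δ), ⟨fun k => ?_, fun k l hkl => ?_⟩, fun k => ?_, ?_⟩
    · by_cases hk : k = j
      · subst hk
        rw [Function.update_self]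
        exact (h1.proj k).add k1 (k2 k)
      · rw [Function.update_of_ne hk]; exact h1.proj k
    · by_cases hk : k = j
      · subst hk
        rw [Function.update_self, Function.update_of_ne hkl.symm, add_mul, h1.orth k l hkl,
          mul_eq_zero_symm (h1.proj l) k1 (k2 l), add_zero]
      · rw [Function.update_of_ne hk]
        by_cases hl : l = j
        · subst hl
          rw [Function.update_self, mul_add, h1.orth k l hkl, k2 k, add_zero]
        · rw [Function.update_of_ne hl]; exact h1.orth k l hkl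
    · by_cases hk : k = j
      · subst hk
        rw [Function.update_self, add_mul, h2]
        have : δ * α k = 0 := by
          rw [← h2 k, ← Matrix.mul_assoc, mul_eq_zero_symm (h1.proj k) k1 (k2 k), Matrix.zero_mul]
        rw [this, add_zero]
      · rw [Function.update_of_ne hk]; exact h2 k
    · have hterm : ∑ k, fro (Function.update α' j (α' j + δ) k -
          (if k ∈ insert j J then p' k else p k)) ≤ ∑ k, fro (α' k - q k) + fro (δ - Δ) := by
        rw [← Finset.add_sum_erase _ _ (Finset.mem_univ j),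
          ← Finset.add_sum_erase _ (fun k => fro (α' k - q k)) (Finset.mem_univ j)]
        have e1 : fro (Function.update α' j (α' j + δ) j -
            (if j ∈ insert j J then p' j else p j)) ≤ fro (α' j - q j) + fro (δ - Δ) := by
          rw [Function.update_self, if_pos (Finset.mem_insert_self _ _), hqj]
          have : α' j + δ - p' j = (α' j - p j) + (δ - Δ) := by rw [hΔ]; abel
          rw [this]
          exact fro_add_le _ _
        have e2 : ∑ k ∈ Finset.univ.erase j, fro (Function.update α' j (α' j + δ) k -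
            (if k ∈ insert j J then p' k else p k)) =
            ∑ k ∈ Finset.univ.erase j, fro (α' k - q k) := by
          refine Finset.sum_congr rfl fun k hk => ?_
          have hk' : k ≠ j := Finset.ne_of_mem_erase hk
          rw [Function.update_of_ne hk']
          simp [hq, Finset.mem_insert, hk']
        rw [e2]
        linarith
      rw [Finset.card_insert_of_notMem hj, pow_succ]
      have hS := SS_nonneg p'
      have : ∑ k, fro (α' k - q k) + SS p' ≤ 4 ^ J.card * (∑ k, fro (α k - p k) + SS p') := h3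
      nlinarith

lemma fro_compl_mono {α α' : Matrix m m ℂ} (hα' : IsProj α') (h : α' * α = α)
    (M : Matrix m m ℂ) : fro ((1 - α') * M) ≤ fro ((1 - α) * M) := by
  have e : (1 - α') * M = (1 - α') * ((1 - α) * M) := by
    rw [← Matrix.mul_assoc, sub_mul 1 α' (1 - α), mul_sub α', h]; simp
  rw [e]
  exact fro_proj_mul_le hα'.compl _

/-- all levels -/
lemma all_levels (p : ℕ → ι → Matrix m m ℂ) (hp : ∀ n k, IsProj (p n k)) (hp0 : ∀ k, p 0 k = 0)
    (hpp : ∀ n k, p n k * p (n + 1) k = p n k) (w : ℕ → ℝ) (hw : ∀ n, 0 ≤ w n)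
    (hw' : ∀ n, w (n + 1) * (4 * 16 ^ Fintype.card ι) = w n) (N : ℕ) :
    ∃ α : ι → Matrix m m ℂ, Orth α ∧
      ∑ n ∈ Finset.range N, w (n + 1) * ∑ k, fro ((1 - α k) * p (n + 1) k) ^ 2 +
        w N * (∑ k, fro (α k - p N k)) ^ 2 ≤
      4 * 16 ^ Fintype.card ι * ∑ n ∈ Finset.range N, w (n + 1) * SS (p (n + 1)) ^ 2 := by
  induction N with
  | zero =>
    refine ⟨fun _ => 0, ⟨fun _ => IsProj.zero, fun _ _ _ => by simp⟩, ?_⟩
    simp [hp0, fro_zero]
  | succ N ih =>
    obtain ⟨α, h1, h2⟩ := ih
    obtain ⟨α', k1, k2, k3⟩ := level_step h1 (hp N) (hp (N + 1)) (hpp N) Finset.univ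
    refine ⟨α', k1, ?_⟩
    simp only [Finset.mem_univ, if_true, Finset.card_univ] at k3
    rw [Finset.sum_range_succ, Finset.sum_range_succ, mul_add]
    set X := ∑ k, fro (α k - p N k) with hX
    set X' := ∑ k, fro (α' k - p (N + 1) k) with hX'
    set S := SS (p (N + 1)) with hS
    set c := Fintype.card ι
    have hX0 : 0 ≤ X := Finset.sum_nonneg fun _ _ => fro_nonneg _
    have hX'0 : 0 ≤ X' := Finset.sum_nonneg fun _ _ => fro_nonneg _
    have hS0 : 0 ≤ S := SS_nonneg _
    have hold : ∑ n ∈ Finset.range N, w (n + 1) * ∑ k, fro ((1 - α' k) * p (n + 1) k) ^ 2 ≤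
        ∑ n ∈ Finset.range N, w (n + 1) * ∑ k, fro ((1 - α k) * p (n + 1) k) ^ 2 := by
      refine Finset.sum_le_sum fun n _ => mul_le_mul_of_nonneg_left ?_ (hw _)
      refine Finset.sum_le_sum fun k _ => ?_
      exact pow_le_pow_left₀ (fro_nonneg _) (fro_compl_mono (k1.proj k) (k2 k) _) 2
    have hnew : ∑ k, fro ((1 - α' k) * p (N + 1) k) ^ 2 ≤ X' ^ 2 := by
      have e : ∀ k, fro ((1 - α' k) * p (N + 1) k) ≤ fro (α' k - p (N + 1) k) := by
        intro k
        have : (1 - α' k) * p (N + 1) k = (1 - α' k) * (p (N + 1) k - α' k) := by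
          rw [mul_sub, sub_mul 1 (α' k) (α' k), (k1.proj k).idem]; simp
        rw [this, fro_sub_comm (α' k)]
        exact fro_proj_mul_le (k1.proj k).compl _
      calc ∑ k, fro ((1 - α' k) * p (N + 1) k) ^ 2 ≤ ∑ k, fro (α' k - p (N + 1) k) ^ 2 :=
            Finset.sum_le_sum fun k _ => pow_le_pow_left₀ (fro_nonneg _) (e k) 2
        _ ≤ X' ^ 2 := by
            rw [hX']
            exact Finset.sum_sq_le_sq_sum_of_nonneg fun k _ => fro_nonneg _
    have h16 : ((4 : ℝ) ^ c) ^ 2 = 16 ^ c := by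
      rw [← pow_mul, mul_comm, pow_mul]; norm_num
    have hX'le : X' ^ 2 ≤ 2 * 16 ^ c * (X ^ 2 + S ^ 2) := by
      have e1 : X' ≤ 4 ^ c * (X + S) := by linarith
      have e2 : X' ^ 2 ≤ (4 ^ c * (X + S)) ^ 2 := pow_le_pow_left₀ hX'0 e1 2
      rw [mul_pow, h16] at e2
      have e3 : (X + S) ^ 2 ≤ 2 * (X ^ 2 + S ^ 2) := by nlinarith [sq_nonneg (X - S)]
      have e4 : (0 : ℝ) < 16 ^ c := by positivity
      nlinarith
    have hwN := hw' N
    have hw1 := hw (N + 1)
    have e5 : w (N + 1) * X' ^ 2 ≤ w (N + 1) * (2 * 16 ^ c * (X ^ 2 + S ^ 2)) :=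
      mul_le_mul_of_nonneg_left hX'le hw1
    have e6 : w (N + 1) * (2 * 16 ^ c * (X ^ 2 + S ^ 2)) =
        w N * X ^ 2 / 2 + 2 * 16 ^ c * (w (N + 1) * S ^ 2) := by
      rw [← hwN]; ring
    have e7 : w (N + 1) * ∑ k, fro ((1 - α' k) * p (N + 1) k) ^ 2 ≤ w (N + 1) * X' ^ 2 :=
      mul_le_mul_of_nonneg_left hnew hw1
    linarith

end Pool.Agent.J4H97.MT
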